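import Mathlib
import Pool.Agent.E8helper80.MB.Core

/-!
# The inner factor of a maximal Blaschke product is a maximal Blaschke product

If `B` and `C` are bounded analytic functions on the unit disc, `‖B‖∞ ≤ 1`, `C` maps the disc into
itself, and `B ∘ C` is a maximal Blaschke product, then `C` is a maximal Blaschke product.
-/

set_option autoImplicit false

open Filter Topology Metric Complex Set
open scoped ComplexConjugate

namespace Pool.Agent.Results.MP_ce8478_an.InnerFactorH80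

open Pool.Agent.E8helper80.MB

/-- `f` is a bounded analytic function on the open unit disc. -/
def IsHInf (f : ℂ → ℂ) : Prop :=
  DifferentiableOn ℂ f (ball 0 1) ∧ ∃ K : ℝ, ∀ z ∈ ball (0:ℂ) 1, ‖f z‖ ≤ K

/-- The function `m` (only its values on the disc matter) counts how often a point occurs in an
`H^∞` critical set: some nonconstant `f` in `H^∞` is such that `f'` vanishes at each `z` of the
disc to order exactly `m z`. -/
def IsCriticalSet (m : ℂ → ℕ) : Prop :=
  ∃ f : ℂ → ℂ, IsHInf f ∧ (∃ z ∈ ball (0:ℂ) 1, ∃ w ∈ ball (0:ℂ) 1, f z ≠ f w) ∧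
    ∀ z ∈ ball (0:ℂ) 1, analyticOrderAt (deriv f) z = (m z : ℕ∞)

/-- The class `F_m`: `f` is in `H^∞` and `f'` vanishes at each `z` to order at least `m z`. -/
def InClass (m : ℂ → ℕ) (f : ℂ → ℂ) : Prop :=
  IsHInf f ∧ ∀ z ∈ ball (0:ℂ) 1, (m z : ℕ∞) ≤ analyticOrderAt (deriv f) z

/-- `B` solves the extremal problem: it maximises `Re f^{(N+1)}(0)`, `N = m 0`, among all `f` in
`F_m` with `‖f‖∞ ≤ 1`. -/
def IsExtremal (m : ℂ → ℕ) (B : ℂ → ℂ) : Prop :=
  InClass m B ∧ (∀ z ∈ ball (0:ℂ) 1, ‖B z‖ ≤ 1) ∧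
    ∀ f : ℂ → ℂ, InClass m f → (∀ z ∈ ball (0:ℂ) 1, ‖f z‖ ≤ 1) →
      (iteratedDeriv (m 0 + 1) f 0).re ≤ (iteratedDeriv (m 0 + 1) B 0).re

/-- `T` is a conformal automorphism of the disc: a holomorphic self-map with a holomorphic
inverse. -/
def IsAut (T : ℂ → ℂ) : Prop :=
  DifferentiableOn ℂ T (ball 0 1) ∧ (∀ z ∈ ball (0:ℂ) 1, ‖T z‖ < 1) ∧
    ∃ S : ℂ → ℂ, DifferentiableOn ℂ S (ball 0 1) ∧ (∀ z ∈ ball (0:ℂ) 1, ‖S z‖ < 1) ∧
      (∀ z ∈ ball (0:ℂ) 1, S (T z) = z) ∧ ∀ z ∈ ball (0:ℂ) 1, T (S z) = z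

/-- `A` is a maximal Blaschke product with critical set `m`. -/
def IsMaximalFor (m : ℂ → ℕ) (A : ℂ → ℂ) : Prop :=
  IsCriticalSet m ∧ ∃ B T : ℂ → ℂ, IsExtremal m B ∧ IsAut T ∧ ∀ z ∈ ball (0:ℂ) 1, A z = T (B z)

/-- `A` is a maximal Blaschke product. -/
def IsMaximalBlaschke (A : ℂ → ℂ) : Prop := ∃ m : ℂ → ℕ, IsMaximalFor m A

/-! ### Auxiliary facts -/

lemma mob_mob {a w : ℂ} (ha : ‖a‖ < 1) (hw : ‖w‖ < 1) : mob (-a) (mob a w) = w := by
  have h1 := den_ne ha hw
  have h2 : (1:ℂ) - conj a * a ≠ 0 := den_ne ha ha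
  have h3 : (1:ℂ) - conj (-a) * ((w - a) / (1 - conj a * w)) ≠ 0 := by
    have h4 := mob_lt ha hw
    have h5 : ‖-a‖ < 1 := by rwa [norm_neg]
    exact den_ne h5 h4
  unfold mob
  rw [div_eq_iff h3, map_neg]
  have hq : (w - a) / (1 - conj a * w) * (1 - conj a * w) = w - a := div_mul_cancel₀ _ h1
  linear_combination hq

lemma mob_mob' {a w : ℂ} (ha : ‖a‖ < 1) (hw : ‖w‖ < 1) : mob a (mob (-a) w) = w := by
  have h := mob_mob (a := -a) (w := w) (by rwa [norm_neg]) hw
  rwa [neg_neg] at h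

lemma hasDerivAt_mob_self {a : ℂ} (ha : ‖a‖ < 1) :
    HasDerivAt (mob a) (1 / (1 - ‖a‖ ^ 2 : ℝ)) a := by
  have h := hasDerivAt_mob (f := fun z => z) (z₀ := a) differentiableAt_fun_id ha
  have h2 : deriv (fun z : ℂ => z) a = 1 := deriv_id a
  rw [h2] at h
  exact h

lemma exists_rot (c : ℂ) : ∃ u : ℂ, ‖u‖ = 1 ∧ u * c = (‖c‖ : ℂ) := by
  by_cases h : c = 0
  · exact ⟨1, norm_one, by simp [h]⟩
  · refine ⟨(‖c‖ : ℂ) / c, ?_, ?_⟩
    · rw [norm_div, Complex.norm_real, norm_norm, div_self (norm_ne_zero_iff.2 h)]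
    · field_simp

/-- the rotated Moebius transform -/
lemma rot_diff {a u : ℂ} (ha : ‖a‖ < 1) :
    DifferentiableOn ℂ (fun w => u * mob a w) (ball 0 1) := (mob_diff ha).const_mul u

lemma rot_deriv {a u : ℂ} (ha : ‖a‖ < 1) :
    deriv (fun w => u * mob a w) a = u / (1 - ‖a‖ ^ 2 : ℝ) := by
  rw [((hasDerivAt_mob_self ha).const_mul u).deriv]
  ring

lemma selfMap_hInf {f : ℂ → ℂ} (hf : SelfMap f) : IsHInf f :=
  ⟨hf.diff, 1, fun z hz => (hf.maps z hz).le⟩

lemma congr_on {f g : ℂ → ℂ} (h : ∀ z ∈ ball (0:ℂ) 1, f z = g z) {z : ℂ}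
    (hz : z ∈ ball (0:ℂ) 1) : deriv f =ᶠ[𝓝 z] deriv g := by
  filter_upwards [isOpen_ball.mem_nhds hz] with w hw
  apply Filter.EventuallyEq.deriv_eq
  filter_upwards [isOpen_ball.mem_nhds hw] with v hv
  exact h v hv

lemma coef_congr {m : ℂ → ℕ} {f g : ℂ → ℂ} (h : ∀ z ∈ ball (0:ℂ) 1, f z = g z) :
    coef m f = coef m g := by
  rw [coef_eq, coef_eq, (congr_on h zero_mem).iteratedDeriv_eq]

lemma van_congr {m : ℂ → ℕ} {f g : ℂ → ℂ} (h : ∀ z ∈ ball (0:ℂ) 1, f z = g z) (hv : Van m g) :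
    Van m f := by
  intro z hz
  rw [analyticOrderAt_congr (congr_on h hz)]
  exact hv z hz

/-- Normalising a member of the class. -/
lemma ratio_bound {m : ℂ → ℕ} {B₀ : ℂ → ℂ} (hB : IsExtremal m B₀) {f : ℂ → ℂ} (hf : SelfMap f)
    (hv : Van m f) : ‖coef m f‖ ≤ (1 - ‖f 0‖ ^ 2) * (coef m B₀).re := by
  have ha : ‖f 0‖ < 1 := hf.maps 0 zero_mem
  obtain ⟨u, hu, huc⟩ := exists_rot (coef m f)
  have hd := deriv_comp' (rot_diff (u := u) ha) hf
  have hdd := deriv_comp_diff (rot_diff (u := u) ha) hf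
  have hself : SelfMap (fun z => u * mob (f 0) (f z)) := by
    refine ⟨(rot_diff ha).comp hf.diff (fun z hz => by simpa using hf.maps z hz), fun z hz => ?_⟩
    rw [norm_mul, hu, one_mul]
    exact mob_lt ha (hf.maps z hz)
  have h1 := hB.2.2 (fun z => u * mob (f 0) (f z))
    ⟨selfMap_hInf hself, van_of_mul hf.diff hdd hd hv⟩ (fun z hz => (hself.maps z hz).le)
  have h2 : coef m (fun z => u * mob (f 0) (f z)) =
      deriv (fun w => u * mob (f 0) w) (f 0) * coef m f :=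
    coef_of_mul hf.diff hdd hd (hv 0 zero_mem)
  have h3 : (coef m (fun z => u * mob (f 0) (f z))).re ≤ (coef m B₀).re := h1
  have hp := hf.pos zero_mem
  rw [h2, rot_deriv ha, div_mul_eq_mul_div, huc, ← Complex.ofReal_div, Complex.ofReal_re,
    div_le_iff₀ hp] at h3
  linarith

/-- the extremal value is positive -/
lemma extremal_pos {m : ℂ → ℕ} (hm : IsCriticalSet m) {B₀ : ℂ → ℂ} (hB : IsExtremal m B₀) :
    0 < (coef m B₀).re := by
  obtain ⟨f, ⟨hfd, K, hK⟩, -, hord⟩ := hm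
  set c : ℝ := (|K| + 1)⁻¹ with hc
  have hc0 : 0 < c := by positivity
  have hcK : c * |K| < 1 := by
    rw [hc, inv_mul_lt_iff₀ (by positivity)]
    linarith
  have hself : SelfMap (fun z => (c : ℂ) * f z) := by
    refine ⟨hfd.const_mul _, fun z hz => ?_⟩
    rw [norm_mul, Complex.norm_real, Real.norm_eq_abs, abs_of_pos hc0]
    have h1 := (hK z hz).trans (le_abs_self K)
    have := mul_le_mul_of_nonneg_left h1 hc0.le
    linarith
  have hder : ∀ z ∈ ball (0:ℂ) 1, deriv (fun z => (c : ℂ) * f z) z = (c : ℂ) * deriv f z :=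
    fun z _ => deriv_const_mul_field _
  have hcd : DifferentiableOn ℂ (fun _ : ℂ => (c : ℂ)) (ball 0 1) := differentiableOn_const _
  have hvf : Van m f := fun z hz => (hord z hz).ge
  have hv : Van m (fun z => (c : ℂ) * f z) := van_of_mul hfd hcd hder hvf
  have h1 := ratio_bound hB hself hv
  have h2 : coef m (fun z => (c : ℂ) * f z) = c * coef m f :=
    coef_of_mul hfd hcd hder (hvf 0 zero_mem)
  have h3 : coef m f ≠ 0 := by
    rw [coef_eq]
    exact ((analyticOrderAt_eq_nat_iff_iteratedDeriv_eq_zero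
      (deriv_analyticAt hfd zero_mem)).1 (hord 0 zero_mem)).2
  have h4 : 0 < ‖coef m (fun z => (c : ℂ) * f z)‖ := by
    rw [h2, norm_pos_iff]
    exact mul_ne_zero (Complex.ofReal_ne_zero.2 hc0.ne') h3
  have h5 := hself.pos zero_mem
  by_contra hcon
  push Not at hcon
  nlinarith

/-- a maximal Blaschke product has the invariant extremal property -/
lemma core_of_maximal {m : ℂ → ℕ} {A : ℂ → ℂ} (hA : IsMaximalFor m A) : Core m A := by
  obtain ⟨hm, B₀, T, hB, ⟨hT, hTm, S, hS, hSm, hST, -⟩, hAT⟩ := hA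
  have hc := extremal_pos hm hB
  have hBv : Van m B₀ := hB.1.2
  -- `B₀` is a self-map of the open disc
  have hBs : SelfMap B₀ := by
    by_contra hcon
    have hall : ∀ z ∈ ball (0:ℂ) 1, ‖B₀ z‖ = 1 := by
      intro z hz
      by_contra h
      exact hcon (selfMap_of_le hB.1.1.1 hB.2.1 hz (lt_of_le_of_ne (hB.2.1 z hz) h))
    have hmax : IsMaxOn (norm ∘ B₀) (ball (0:ℂ) 1) 0 := by
      intro w hw
      simp only [Function.comp, Set.mem_ofPred_eq, hall w hw, hall 0 zero_mem, le_refl]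
    have hconst := Complex.eqOn_of_isPreconnected_of_isMaxOn_norm
      (convex_ball (0:ℂ) 1).isPreconnected isOpen_ball hB.1.1.1 zero_mem hmax
    have h1 : coef m B₀ = 0 := by
      rw [coef_congr (g := fun _ => B₀ 0) (fun z hz => hconst hz), coef]
      simp [iteratedDeriv_const]
    rw [h1] at hc
    simp at hc
  have hTs : SelfMap T := ⟨hT, hTm⟩
  have hSs : SelfMap S := ⟨hS, hSm⟩
  -- `B₀ 0 = 0`
  have h1 := ratio_bound hB hBs hBv
  have hre : (coef m B₀).re ≤ ‖coef m B₀‖ := Complex.re_le_norm _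
  have hB0 : B₀ 0 = 0 := by
    have h2 : ‖B₀ 0‖ ^ 2 ≤ 0 := by nlinarith
    have h3 : ‖B₀ 0‖ ^ 2 = 0 := le_antisymm h2 (sq_nonneg _)
    exact norm_eq_zero.1 (pow_eq_zero_iff (two_ne_zero) |>.1 h3)
  -- the derivative of `T` at `0`
  have hT0 : 1 - ‖T 0‖ ^ 2 ≤ ‖deriv T 0‖ := by
    have hTb : T 0 ∈ ball (0:ℂ) 1 := by simpa using hTm 0 zero_mem
    have h2 := hSs.schwarz_pick hTb
    have h3 : deriv S (T 0) * deriv T 0 = 1 := by
      have h4 := deriv_comp' hS hTs 0 zero_mem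
      rw [← h4]
      have h5 : (fun w => S (T w)) =ᶠ[𝓝 0] fun w => w := by
        filter_upwards [isOpen_ball.mem_nhds zero_mem] with w hw
        exact hST w hw
      rw [h5.deriv_eq]
      exact deriv_id _
    rw [hST 0 zero_mem, norm_zero] at h2
    have h6 : ‖deriv S (T 0)‖ * ‖deriv T 0‖ = 1 := by rw [← norm_mul, h3, norm_one]
    have h7 := mul_le_mul_of_nonneg_right h2 (norm_nonneg (deriv T 0))
    nlinarith
  have hd := deriv_comp' hT hBs
  have hdd := deriv_comp_diff hT hBs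
  have hcA : coef m A = deriv T 0 * coef m B₀ := by
    rw [coef_congr hAT, coef_of_mul hBs.diff hdd hd (hBv 0 zero_mem), hB0]
  have hA0 : A 0 = T 0 := by rw [hAT 0 zero_mem, hB0]
  have hAs : SelfMap A := by
    have h2 := hTs.comp hBs
    refine ⟨h2.diff.congr hAT, fun z hz => ?_⟩
    rw [hAT z hz]
    exact h2.maps z hz
  have hTp := hTs.pos zero_mem
  refine ⟨hAs, van_congr hAT (van_of_mul hBs.diff hdd hd hBv), ?_, ?_⟩
  · rw [hcA]
    refine mul_ne_zero ?_ ?_
    · intro h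
      rw [h, norm_zero] at hT0
      linarith
    · intro h
      rw [h] at hc
      simp at hc
  · intro f hf hv
    have h2 := ratio_bound hB hf hv
    have hfp := hf.pos zero_mem
    rw [hcA, hA0, norm_mul]
    have h3 : (coef m B₀).re * (1 - ‖T 0‖ ^ 2) ≤ ‖deriv T 0‖ * ‖coef m B₀‖ := by
      calc (coef m B₀).re * (1 - ‖T 0‖ ^ 2) ≤ ‖coef m B₀‖ * ‖deriv T 0‖ :=
            mul_le_mul hre hT0 hTp.le (norm_nonneg _)
        _ = _ := mul_comm _ _
    calc ‖coef m f‖ * (1 - ‖T 0‖ ^ 2) ≤ (1 - ‖f 0‖ ^ 2) * (coef m B₀).re * (1 - ‖T 0‖ ^ 2) :=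
          mul_le_mul_of_nonneg_right h2 hTp.le
      _ = (1 - ‖f 0‖ ^ 2) * ((coef m B₀).re * (1 - ‖T 0‖ ^ 2)) := by ring
      _ ≤ _ := mul_le_mul_of_nonneg_left h3 hfp.le

/-- the invariant extremal property gives a maximal Blaschke product -/
lemma maximal_of_core {m : ℂ → ℕ} {C : ℂ → ℂ} (hC : Core m C)
    (hord : ∀ z ∈ ball (0:ℂ) 1, analyticOrderAt (deriv C) z = (m z : ℕ∞)) : IsMaximalFor m C := by
  have hCs := hC.self
  have ha : ‖C 0‖ < 1 := hCs.maps 0 zero_mem
  have ha' : ‖-C 0‖ < 1 := by rwa [norm_neg]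
  have hp := hCs.pos zero_mem
  refine ⟨⟨C, selfMap_hInf hCs, ?_, hord⟩, ?_⟩
  · by_contra hcon
    push Not at hcon
    apply hC.ne
    rw [coef_congr (g := fun _ => C 0) (fun z hz => hcon z hz 0 zero_mem), coef]
    simp [iteratedDeriv_const]
  · obtain ⟨u, hu, huc⟩ := exists_rot (coef m C)
    have hu0 : u ≠ 0 := by
      intro h
      rw [h, norm_zero] at hu
      exact zero_ne_one hu
    have hd := deriv_comp' (rot_diff (u := u) ha) hCs
    have hdd := deriv_comp_diff (rot_diff (u := u) ha) hCs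
    have hself : SelfMap (fun z => u * mob (C 0) (C z)) := by
      refine ⟨(rot_diff ha).comp hCs.diff (fun z hz => by simpa using hCs.maps z hz),
        fun z hz => ?_⟩
      rw [norm_mul, hu, one_mul]
      exact mob_lt ha (hCs.maps z hz)
    have hcoef : coef m (fun z => u * mob (C 0) (C z)) =
        ((‖coef m C‖ / (1 - ‖C 0‖ ^ 2) : ℝ) : ℂ) := by
      rw [coef_of_mul hCs.diff hdd hd (hC.van 0 zero_mem), rot_deriv ha, div_mul_eq_mul_div, huc,
        ← Complex.ofReal_div]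
    have hinv : ‖u⁻¹‖ = 1 := by rw [norm_inv, hu, inv_one]
    refine ⟨fun z => u * mob (C 0) (C z), fun w => mob (-C 0) (u⁻¹ * w), ?_, ?_, ?_⟩
    · refine ⟨⟨selfMap_hInf hself, van_of_mul hCs.diff hdd hd hC.van⟩,
        fun z hz => (hself.maps z hz).le, ?_⟩
      intro f hf hfb
      have hfv : Van m f := hf.2
      change (coef m f).re ≤ (coef m (fun z => u * mob (C 0) (C z))).re
      rw [hcoef, Complex.ofReal_re, le_div_iff₀ hp]
      -- scale by `t < 1`
      have hscale : ∀ t : ℝ, 0 < t → t < 1 →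
          t * ‖coef m f‖ * (1 - ‖C 0‖ ^ 2) ≤ ‖coef m C‖ := by
        intro t ht ht1
        have hts : SelfMap (fun z => (t : ℂ) * f z) := by
          refine ⟨hf.1.1.const_mul _, fun z hz => ?_⟩
          rw [norm_mul, Complex.norm_real, Real.norm_eq_abs, abs_of_pos ht]
          have := hfb z hz
          nlinarith [norm_nonneg (f z)]
        have hder : ∀ z ∈ ball (0:ℂ) 1,
            deriv (fun z => (t : ℂ) * f z) z = (t : ℂ) * deriv f z :=
          fun z _ => deriv_const_mul_field _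
        have hcd : DifferentiableOn ℂ (fun _ : ℂ => (t : ℂ)) (ball 0 1) :=
          differentiableOn_const _
        have h1 := hC.ext _ hts (van_of_mul hf.1.1 hcd hder hfv)
        rw [coef_of_mul hf.1.1 hcd hder (hfv 0 zero_mem), norm_mul, Complex.norm_real,
          Real.norm_eq_abs, abs_of_pos ht] at h1
        have h2 : (1 - ‖(t : ℂ) * f 0‖ ^ 2) * ‖coef m C‖ ≤ 1 * ‖coef m C‖ := by
          apply mul_le_mul_of_nonneg_right _ (norm_nonneg _)
          nlinarith [sq_nonneg ‖(t : ℂ) * f 0‖]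
        linarith
      have hlim : ‖coef m f‖ * (1 - ‖C 0‖ ^ 2) ≤ ‖coef m C‖ := by
        have ht : Tendsto (fun t : ℝ => t * ‖coef m f‖ * (1 - ‖C 0‖ ^ 2)) (𝓝[<] 1)
            (𝓝 (1 * ‖coef m f‖ * (1 - ‖C 0‖ ^ 2))) := by
          have hcont : Continuous fun t : ℝ => t * ‖coef m f‖ * (1 - ‖C 0‖ ^ 2) := by fun_prop
          exact (hcont.tendsto 1).mono_left nhdsWithin_le_nhds
        rw [one_mul] at ht
        apply le_of_tendsto ht
        have h3 : ∀ᶠ t : ℝ in 𝓝[<] 1, 0 < t := by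
          apply nhdsWithin_le_nhds
          exact lt_mem_nhds one_pos
        filter_upwards [h3, self_mem_nhdsWithin] with t ht0 ht1
        exact hscale t ht0 ht1
      have hre : (coef m f).re ≤ ‖coef m f‖ := Complex.re_le_norm _
      exact (mul_le_mul_of_nonneg_right hre hp.le).trans hlim
    · have hrot : ∀ z ∈ ball (0:ℂ) 1, u⁻¹ * z ∈ ball (0:ℂ) 1 := by
        intro z hz
        simpa [hu] using hz
      refine ⟨(mob_diff ha').comp (differentiableOn_id.const_mul _) hrot, ?_,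
        fun w => u * mob (C 0) w, rot_diff ha, ?_, ?_, ?_⟩
      · intro z hz
        exact mob_lt ha' (by simpa using hrot z hz)
      · intro z hz
        rw [norm_mul, hu, one_mul]
        exact mob_lt ha (by simpa using hz)
      · intro z hz
        simp only
        rw [mob_mob' ha (by simpa using hrot z hz)]
        field_simp
      · intro z hz
        simp only
        rw [← mul_assoc, inv_mul_cancel₀ hu0, one_mul]
        exact mob_mob ha (by simpa using hz)
    · intro z hz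
      simp only
      rw [← mul_assoc, inv_mul_cancel₀ hu0, one_mul]
      exact (mob_mob ha (hCs.maps z hz)).symm

/-- **Main theorem.** Let `B` and `C` be in `H^∞` with `‖B‖∞ ≤ 1` and `C` a self-map of the disc.
If `B ∘ C` is a maximal Blaschke product, then `C` is a maximal Blaschke product. -/
theorem result (B C : ℂ → ℂ) (hB : DifferentiableOn ℂ B (ball 0 1))
    (hB1 : ∀ z ∈ ball (0:ℂ) 1, ‖B z‖ ≤ 1) (hC : DifferentiableOn ℂ C (ball 0 1))
    (hC1 : ∀ z ∈ ball (0:ℂ) 1, ‖C z‖ < 1) (hA : IsMaximalBlaschke (fun z => B (C z))) :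
    IsMaximalBlaschke C := by
  obtain ⟨m, hm⟩ := hA
  have hcore := core_of_maximal hm
  have hCs : SelfMap C := ⟨hC, hC1⟩
  have hBs : SelfMap B :=
    selfMap_of_le hB hB1 (z₁ := C 0) (by simpa using hC1 0 zero_mem) (hcore.self.maps 0 zero_mem)
  obtain ⟨h1, h2⟩ := core_inner hBs hCs hcore
  exact ⟨_, maximal_of_core h1 h2⟩

end Pool.Agent.Results.MP_ce8478_an.InnerFactorH80
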